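import Pool.Agent.helper78.HFN.Spec

/-!
# Project HFN (MP_3221a1_ag), row FXB: the fixed curve
-/

set_option autoImplicit false

open Polynomial Module

namespace Pool.Agent.HFN

noncomputable section

theorem FXB_Wt (Z : Finset (ℂ × ℂ)) : Wt Z two = 3 * Z.card := by
  unfold Wt two wt
  simp [mul_comm]

theorem FXB_num (p q b b' r h : ℕ) (hb : b ≤ p) (hb' : b' ≤ q) (h1 : (p + 1) * (q + 1) ≤ h + 3 * r)
    (h2 : h ≤ (p - b + 1) * (q - b' + 1)) : (q + 1) * b + (p + 1) * b' ≤ 6 * r := by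
  obtain ⟨P, rfl⟩ := Nat.exists_eq_add_of_le hb
  obtain ⟨Q, rfl⟩ := Nat.exists_eq_add_of_le hb'
  have e1 : b + P - b = P := by omega
  have e2 : b' + Q - b' = Q := by omega
  rw [e1, e2] at h2
  nlinarith

theorem FXB_dbl (E g : AA) (z : ℂ × ℂ) (h : ev z E = 0) : Db z (E * E * g) := by
  refine ⟨?_, ?_, ?_⟩
  · rw [ev_mul, ev_mul, h]
    ring
  · rw [Dx_mul, Dx_mul, ev_add, ev_mul, ev_mul, ev_add, ev_mul, ev_mul, ev_mul, h]
    ring
  · rw [Dy_mul, Dy_mul, ev_add, ev_mul, ev_mul, ev_add, ev_mul, ev_mul, ev_mul, h]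
    ring

theorem FXB (hCPR : CPR_stmt) (hDIM : DIM_stmt) (hRES : RES_stmt) : FXB_stmt := by
  intro Z p q hpq
  have hD := (hDIM Z two (fun _ => le_rfl) p q).1
  rw [FXB_Wt] at hD
  have hne : (V p q ⊓ (JJ Z two).restrictScalars ℂ : Submodule ℂ AA) ≠ ⊥ := by
    intro h0
    have h1 : hd (JJ Z two) p q = 0 := by
      unfold hd
      rw [h0, finrank_bot]
    omega
  obtain ⟨B, G1, G2, hB, hG1, hdiv, hU1, hU2, hrel⟩ := hCPR _ p q inf_le_left hne
  have hdeg := (mul_mem_V_iff hB hG1).1 hU1.1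
  have hb : dX B ≤ p := by omega
  have hb' : dY B ≤ q := by omega
  refine ⟨B, G1, G2, hB, hG1, ⟨hU1.1, hU1.2⟩, ⟨hU2.1, hU2.2⟩, hrel, hb, hb', ?_, ?_⟩
  · refine FXB_num p q _ _ _ (hd (JJ Z two) p q) hb hb' hD ?_
    have hle : (V p q ⊓ (JJ Z two).restrictScalars ℂ : Submodule ℂ AA) ≤
        (V (p - dX B) (q - dY B)).map (LinearMap.mulLeft ℂ B) := by
      intro f hf
      obtain ⟨g, rfl⟩ := hdiv f hf
      exact ⟨g, mem_V_of_mul hB hf.1, rfl⟩
    have h1 := Submodule.finrank_mono hle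
    have h2 := Submodule.finrank_map_le (LinearMap.mulLeft ℂ B) (V (p - dX B) (q - dY B))
    rw [finrank_V] at h2
    exact le_trans h1 h2
  · rintro E hE ⟨B0, hB0⟩
    have hE0 : E ≠ 0 := hE.ne_zero
    have hB00 : B0 ≠ 0 := by
      rintro rfl
      exact hB (by rw [hB0, mul_zero])
    have key : ∀ G : AA, B * G ∈ (V p q ⊓ (JJ Z two).restrictScalars ℂ : Submodule ℂ AA) → E ∣ G := by
      intro G hG
      have e1 : E * (E * E * (B0 * G)) = B * G := by
        rw [hB0]
        ring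
      have hf : E * E * (B0 * G) ∈ (V p q ⊓ (JJ Z two).restrictScalars ℂ : Submodule ℂ AA) := by
        refine ⟨?_, ?_⟩
        · have h1 : E * (E * E * (B0 * G)) ∈ V p q := by
            rw [e1]
            exact hG.1
          exact V_mono (Nat.sub_le _ _) (Nat.sub_le _ _) (mem_V_of_mul hE0 h1)
        · intro z hz
          by_cases hEz : ev z E = 0
          · have h1 := FXB_dbl E (B0 * G) z hEz
            exact ⟨fun _ => h1.1, fun _ => h1⟩
          · have h1 : Kc 2 z (E * (E * E * (B0 * G))) := by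
              rw [e1]
              exact hG.2 z hz
            have h2 := (hRES 2 z E (E * E * (B0 * G)) le_rfl).1 h1
            have h3 : od E z = 0 := by
              unfold od
              rw [if_neg (fun h => hEz h.1), if_neg hEz]
            rw [h3] at h2
            exact h2
      obtain ⟨w, hw⟩ := hdiv _ hf
      refine ⟨w, ?_⟩
      have h1 : (E * E * B0) * G = (E * E * B0) * (E * w) := by
        calc (E * E * B0) * G = E * E * (B0 * G) := by ring
          _ = B * w := hw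
          _ = (E * E * B0) * (E * w) := by rw [hB0]; ring
      exact mul_left_cancel₀ (mul_ne_zero (mul_ne_zero hE0 hE0) hB00) h1
    exact hE.not_isUnit (hrel (key G1 hU1) (key G2 hU2))

end

end Pool.Agent.HFN
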